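import Pool.Agent.Helper60.GM.Defs
import Pool.Agent.Helper92.DT.R4

/-!
# GM-D2: `locG`, the family near a slope and the linear family
-/

open MeasureTheory Real Set Filter Topology

set_option autoImplicit false

namespace Pool.Agent.Helper60.GM

open Pool.Agent.Helper22.AE
open Pool.Agent.Helper92.GC (dt tp Tq uu tt arc dd sqa m6)
open Pool.Agent.Helper92.DT (m12 IsMul12)
open Pool.Agent.Helper92.DT (m12_shift m12_congr m12_nonneg mul12_exp)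
open Pool.Agent.Helper60.LT (Fr Tf xf yf df vf fr ac co Cut BB PP)
open Pool.Agent.Helper60.QL (nm Cone)
open Pool.Agent.Helper60.RT (R2 cn FR sp Pr prs ctr lf2 ln2)

private theorem ee_add65 (x y : ℝ) : ee (x + y) = ee x * ee y := by
  unfold ee
  rw [← Complex.exp_add]
  congr 1
  push_cast
  ring

/-- a function with small derivative on a symmetric interval -/
private theorem mv65 {f g : ℝ → ℝ} {w C : ℝ} (h : ∀ t, |t| ≤ w → HasDerivAt f (g t) t) (hb : ∀ t, |t| ≤ w → |g t| ≤ C)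
    {a b : ℝ} (ha : |a| ≤ w) (hb' : |b| ≤ w) : |f a - f b| ≤ C * |a - b| := by
  have hs : ∀ x ∈ Icc (-w) w, HasDerivWithinAt f (g x) (Icc (-w) w) x := fun x hx => (h x (abs_le.2 hx)).hasDerivWithinAt
  have := (convex_Icc (-w) w).norm_image_sub_le_of_norm_hasDerivWithin_le hs (C := C)
    (fun x hx => by rw [Real.norm_eq_abs]; exact hb x (abs_le.2 hx)) (abs_le.1 hb') (abs_le.1 ha)
  rwa [Real.norm_eq_abs, Real.norm_eq_abs] at this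

/-- one step of the Taylor bound -/
private theorem step65 {f g : ℝ → ℝ} {w L : ℝ} {n : ℕ} (h : ∀ t, |t| ≤ w → HasDerivAt f (g t) t) (h0 : f 0 = 0)
    (hb : ∀ t, |t| ≤ w → |g t| ≤ L * |t| ^ n) {t : ℝ} (ht : |t| ≤ w) : |f t| ≤ L * |t| ^ (n + 1) := by
  have hL : 0 ≤ L * |t| ^ n := (abs_nonneg _).trans (hb t ht)
  by_cases hL0 : 0 ≤ L
  · have := mv65 (f := f) (g := g) (w := |t|) (C := L * |t| ^ n) (fun s hs => h s (hs.trans ht))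
      (fun s hs => (hb s (hs.trans ht)).trans (mul_le_mul_of_nonneg_left (pow_le_pow_left₀ (abs_nonneg _) hs n) hL0))
      (a := t) (b := 0) le_rfl (by simp)
    rw [h0, sub_zero, sub_zero] at this
    rw [pow_succ, ← mul_assoc]
    exact this
  · -- `L < 0`: then `t = 0`
    have hw : 0 ≤ w := (abs_nonneg _).trans ht
    have hL1 : L < 0 := not_le.1 hL0
    have h1 := hb w (by rw [abs_of_nonneg hw])
    have h2 : 0 ≤ L * |w| ^ n := (abs_nonneg _).trans h1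
    have h3 : |w| ^ n = 0 := by
      have h4 : 0 ≤ |w| ^ n := by positivity
      by_contra hne
      have h5 : 0 < |w| ^ n := lt_of_le_of_ne h4 (Ne.symm hne)
      nlinarith
    have h6 : n ≠ 0 := by
      rintro rfl
      simp at h3
    have h7 : w = 0 := by
      have := pow_eq_zero_iff h6 |>.1 h3
      exact abs_eq_zero.1 this
    have h8 : t = 0 := by
      rw [h7] at ht
      exact abs_nonpos_iff.1 ht
    rw [h8, h0]
    simp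

/-- the increments of the parameters -/
private theorem inc65 {F : Fam} {B₀ B : ℝ} (hF : F.Ok B₀) (hB : 1 ≤ B) {X ρ σ t₀ s₀ l r s r' s' : ℝ} (hX : 0 < X)
    (ht₀ : |t₀| ≤ 3) (hσ : 0 < σ) (hI : In s₀ l) (hJ : ∀ v ∈ Icc (s₀ - l) (s₀ + l), σ ≤ |F.J v t₀|)
    (hr : r ∈ Icc (X / B) (B * X)) (hr' : r' ∈ Icc (X / B) (B * X)) (hs : s ∈ Icc (s₀ - l) (s₀ + l)) (hs' : s' ∈ Icc (s₀ - l) (s₀ + l))
    (d1 : |(Ar F t₀ (r', s')).1 - (Ar F t₀ (r, s)).1| ≤ ρ) (d2 : |(Ar F t₀ (r', s')).2 - (Ar F t₀ (r, s)).2| ≤ ρ) :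
    X * (σ * |s' - s|) ≤ 2 * B * B₀ * (B₀ ^ 2 + 1) * ρ ∧ σ * |r' - r| ≤ 2 * B₀ ^ 2 * ρ + B * B₀ ^ 2 * (2 * B * B₀ * (B₀ ^ 2 + 1) * ρ) := by
  obtain ⟨hl, hI1, hI2⟩ := hI
  have hB₀ := hF.B1
  have hB00 : 0 < B₀ := by linarith
  have hB0 : 0 < B := by linarith
  have ht : |t₀| ≤ 12 := by linarith
  have hin : ∀ v ∈ Icc (s₀ - l) (s₀ + l), v ∈ Icc (-1 : ℝ) 2 := fun v hv => ⟨by linarith [hv.1], by linarith [hv.2]⟩
  have hρ : 0 ≤ ρ := (abs_nonneg _).trans d1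
  obtain ⟨-, -, bp, bq3, -, -, -, -⟩ := hF.bd s (hin s hs) t₀ ht
  obtain ⟨-, -, bp', bq3', -, -, -, -⟩ := hF.bd s' (hin s' hs') t₀ ht
  have pl := hF.p_lo s (hin s hs) t₀ ht
  have pl' := hF.p_lo s' (hin s' hs') t₀ ht
  have p0 : 0 < F.p s t₀ := by
    by_contra hcon
    have : B₀ * F.p s t₀ ≤ 0 := mul_nonpos_of_nonneg_of_nonpos hB00.le (not_lt.1 hcon)
    linarith
  have p0' : 0 < F.p s' t₀ := by
    by_contra hcon
    have : B₀ * F.p s' t₀ ≤ 0 := mul_nonpos_of_nonneg_of_nonpos hB00.le (not_lt.1 hcon)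
    linarith
  have r0 : 0 < r := lt_of_lt_of_le (by positivity) hr.1
  have r0' : 0 < r' := lt_of_lt_of_le (by positivity) hr'.1
  obtain ⟨a, ha⟩ : ∃ a, a = r * F.p s t₀ / 2 := ⟨_, rfl⟩
  obtain ⟨a', ha'⟩ : ∃ a', a' = r' * F.p s' t₀ / 2 := ⟨_, rfl⟩
  have hA : Ar F t₀ (r, s) = (a, -(F.x s t₀ * a)) := by unfold Ar; rw [ha]
  have hA' : Ar F t₀ (r', s') = (a', -(F.x s' t₀ * a')) := by unfold Ar; rw [ha']
  rw [hA, hA'] at d1 d2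
  simp only at d1 d2
  have a0 : 0 < a := by rw [ha]; positivity
  have a0' : 0 < a' := by rw [ha']; positivity
  have alo' : X ≤ 2 * B * B₀ * a' := by
    have h1 : X ≤ B * r' := by
      have := hr'.1
      rw [div_le_iff₀ hB0] at this
      linarith
    have h2 : r' * 1 ≤ r' * (B₀ * F.p s' t₀) := mul_le_mul_of_nonneg_left pl' r0'.le
    rw [ha']
    nlinarith
  -- the shear
  have hx : |F.x s t₀| ≤ B₀ ^ 2 := by
    unfold Fam.x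
    rw [abs_div, abs_neg, abs_of_pos (by positivity : 0 < 3 * F.p s t₀), div_le_iff₀ (by positivity)]
    have h1 : B₀ * 1 ≤ B₀ * (B₀ * F.p s t₀) := mul_le_mul_of_nonneg_left pl hB00.le
    have h2 : 0 ≤ B₀ ^ 2 * F.p s t₀ := by positivity
    nlinarith
  have hxx : |F.x s' t₀ - F.x s t₀| * a' ≤ (B₀ ^ 2 + 1) * ρ := by
    have e1 : (F.x s' t₀ - F.x s t₀) * a' = -((-(F.x s' t₀ * a')) - (-(F.x s t₀ * a))) - F.x s t₀ * (a' - a) := by ring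
    have e2 : |(F.x s' t₀ - F.x s t₀) * a'| ≤ ρ + B₀ ^ 2 * ρ := by
      rw [e1]
      refine (abs_sub _ _).trans (add_le_add ?_ ?_)
      · rw [abs_neg]
        exact d2
      · rw [abs_mul]
        exact mul_le_mul hx d1 (abs_nonneg _) (by positivity)
    rw [abs_mul, abs_of_pos a0'] at e2
    linarith
  -- the parameter `s`
  have hmv : σ * |s' - s| ≤ |F.x s' t₀ - F.x s t₀| := by
    have gen : ∀ a b : ℝ, a ∈ Icc (s₀ - l) (s₀ + l) → b ∈ Icc (s₀ - l) (s₀ + l) → a < b → σ * |b - a| ≤ |F.x b t₀ - F.x a t₀| := by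
      intro a b hha hhb hab
      have hsub : ∀ v ∈ Icc a b, v ∈ Icc (s₀ - l) (s₀ + l) := fun v hv => ⟨hha.1.trans hv.1, hv.2.trans hhb.2⟩
      have hc : ContinuousOn (fun v => F.x v t₀) (Icc a b) := fun v hv =>
        (hF.hx v (hin v (hsub v hv)) t₀ ht).continuousAt.continuousWithinAt
      obtain ⟨c, hc1, hc2⟩ := exists_hasDerivAt_eq_slope (fun v => F.x v t₀) (fun v => F.J v t₀) hab hc
        (fun v hv => hF.hx v (hin v (hsub v (Ioo_subset_Icc_self hv))) t₀ ht)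
      have h3 := hJ c (hsub c (Ioo_subset_Icc_self hc1))
      rw [hc2, abs_div, le_div_iff₀ (abs_pos.2 (by linarith))] at h3
      exact h3
    rcases lt_trichotomy s s' with h | h | h
    · exact gen s s' hs hs' h
    · rw [h]
      simp
    · rw [abs_sub_comm s' s, abs_sub_comm (F.x s' t₀)]
      exact gen s' s hs' hs h
  have R1 : X * (σ * |s' - s|) ≤ 2 * B * B₀ * (B₀ ^ 2 + 1) * ρ := by
    have h1 : X * (σ * |s' - s|) ≤ 2 * B * B₀ * a' * |F.x s' t₀ - F.x s t₀| := mul_le_mul alo' hmv (by positivity) (by positivity)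
    have h2 : 2 * B * B₀ * (|F.x s' t₀ - F.x s t₀| * a') ≤ 2 * B * B₀ * ((B₀ ^ 2 + 1) * ρ) := mul_le_mul_of_nonneg_left hxx (by positivity)
    linarith
  refine ⟨R1, ?_⟩
  -- the parameter `r`
  have hσB : σ ≤ B₀ := by
    obtain ⟨-, -, -, -, -, -, bJ, -⟩ := hF.bd s (hin s hs) t₀ ht
    exact (hJ s hs).trans bJ
  have e1 : (r' - r) * F.p s' t₀ = 2 * (a' - a) - r * (F.p s' t₀ - F.p s t₀) := by
    rw [ha, ha']
    ring
  have hlp := (hF.lip s' (hin s' hs') s (hin s hs) t₀ ht).1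
  have e2 : |r' - r| * F.p s' t₀ ≤ 2 * ρ + B * X * (B₀ * |s' - s|) := by
    have : |(r' - r) * F.p s' t₀| ≤ 2 * ρ + B * X * (B₀ * |s' - s|) := by
      rw [e1]
      refine (abs_sub _ _).trans (add_le_add ?_ ?_)
      · rw [abs_mul, abs_of_pos (by norm_num : (0 : ℝ) < 2)]
        exact mul_le_mul_of_nonneg_left d1 (by norm_num)
      · rw [abs_mul, abs_of_pos r0]
        exact mul_le_mul hr.2 hlp (abs_nonneg _) (by positivity)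
    rwa [abs_mul, abs_of_pos p0'] at this
  have e3 : |r' - r| ≤ B₀ * (2 * ρ + B * X * (B₀ * |s' - s|)) := by
    have h1 : |r' - r| * 1 ≤ |r' - r| * (B₀ * F.p s' t₀) := mul_le_mul_of_nonneg_left pl' (abs_nonneg _)
    have h2 : B₀ * (|r' - r| * F.p s' t₀) ≤ B₀ * (2 * ρ + B * X * (B₀ * |s' - s|)) := mul_le_mul_of_nonneg_left e2 hB00.le
    linarith
  have e4 : σ * |r' - r| ≤ σ * (B₀ * (2 * ρ + B * X * (B₀ * |s' - s|))) := mul_le_mul_of_nonneg_left e3 hσ.le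
  have e5 : σ * (B₀ * (2 * ρ + B * X * (B₀ * |s' - s|))) = σ * (2 * B₀ * ρ) + B * B₀ ^ 2 * (X * (σ * |s' - s|)) := by ring
  have e6 : σ * (2 * B₀ * ρ) ≤ B₀ * (2 * B₀ * ρ) := mul_le_mul_of_nonneg_right hσB (by positivity)
  have e7 : B * B₀ ^ 2 * (X * (σ * |s' - s|)) ≤ B * B₀ ^ 2 * (2 * B * B₀ * (B₀ ^ 2 + 1) * ρ) := mul_le_mul_of_nonneg_left R1 (by positivity)
  have e8 : B₀ * (2 * B₀ * ρ) = 2 * B₀ ^ 2 * ρ := by ring
  linarith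

/-- the remainder of the difference of two members -/
private noncomputable def G65 (F : Fam) (t₀ r s r' s' : ℝ) (τ : ℝ) : ℝ :=
  (r' * F.q s' (t₀ + τ) - r * F.q s (t₀ + τ)) - ((r' * F.q s' t₀ - r * F.q s t₀) + (r' * F.q1 s' t₀ - r * F.q1 s t₀) * τ +
    (r' * F.p s' t₀ - r * F.p s t₀) / 2 * τ ^ 2 + (r' * F.q3 s' t₀ - r * F.q3 s t₀) / 6 * τ ^ 3)

private theorem G_bd65 {F : Fam} {B₀ : ℝ} (hF : F.Ok B₀) {t₀ r s r' s' L : ℝ} (ht₀ : |t₀| ≤ 3) (hs : s ∈ Icc (-1 : ℝ) 2) (hs' : s' ∈ Icc (-1 : ℝ) 2)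
    (hL0 : 0 ≤ L) (hL : ∀ t : ℝ, |t| ≤ 12 → |r' * F.q4 s' t - r * F.q4 s t| ≤ L) {w : ℝ} (hw : w ≤ 1) :
    (∀ τ, |τ| ≤ w → |G65 F t₀ r s r' s' τ| ≤ L * |τ| ^ 4) ∧
    ∀ τ τ', |τ| ≤ w → |τ'| ≤ w → |G65 F t₀ r s r' s' τ - G65 F t₀ r s r' s' τ'| ≤ L * w ^ 3 * |τ - τ'| := by
  have ht : ∀ τ : ℝ, |τ| ≤ 1 → |t₀ + τ| ≤ 12 := by
    intro τ hτ
    have := abs_add_le t₀ τ
    linarith
  obtain ⟨G1, hG1⟩ : ∃ G1 : ℝ → ℝ, G1 = fun τ => (r' * F.q1 s' (t₀ + τ) - r * F.q1 s (t₀ + τ)) - ((r' * F.q1 s' t₀ - r * F.q1 s t₀) +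
    (r' * F.p s' t₀ - r * F.p s t₀) * τ + (r' * F.q3 s' t₀ - r * F.q3 s t₀) / 2 * τ ^ 2) := ⟨_, rfl⟩
  obtain ⟨G2, hG2⟩ : ∃ G2 : ℝ → ℝ, G2 = fun τ => (r' * F.p s' (t₀ + τ) - r * F.p s (t₀ + τ)) - ((r' * F.p s' t₀ - r * F.p s t₀) +
    (r' * F.q3 s' t₀ - r * F.q3 s t₀) * τ) := ⟨_, rfl⟩
  obtain ⟨G3, hG3⟩ : ∃ G3 : ℝ → ℝ, G3 = fun τ => (r' * F.q3 s' (t₀ + τ) - r * F.q3 s (t₀ + τ)) - (r' * F.q3 s' t₀ - r * F.q3 s t₀) := ⟨_, rfl⟩
  obtain ⟨G4, hG4⟩ : ∃ G4 : ℝ → ℝ, G4 = fun τ => r' * F.q4 s' (t₀ + τ) - r * F.q4 s (t₀ + τ) := ⟨_, rfl⟩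
  have cmp : ∀ {f : ℝ → ℝ} {f' x : ℝ}, HasDerivAt f f' (t₀ + x) → HasDerivAt (fun τ => f (t₀ + τ)) f' x := by
    intro f f' x h
    exact h.comp_const_add t₀ x
  have D0 : ∀ τ, |τ| ≤ 1 → HasDerivAt (G65 F t₀ r s r' s') (G1 τ) τ := by
    intro τ hτ
    have a1 := (cmp (hF.hq s' hs' _ (ht τ hτ))).const_mul r'
    have a2 := (cmp (hF.hq s hs _ (ht τ hτ))).const_mul r
    have a3 := (((hasDerivAt_id τ).const_mul (r' * F.q1 s' t₀ - r * F.q1 s t₀)).const_add (r' * F.q s' t₀ - r * F.q s t₀)).add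
      ((hasDerivAt_pow 2 τ).const_mul ((r' * F.p s' t₀ - r * F.p s t₀) / 2))
    have a4 := a3.add ((hasDerivAt_pow 3 τ).const_mul ((r' * F.q3 s' t₀ - r * F.q3 s t₀) / 6))
    rw [hG1]
    refine ((a1.sub a2).sub a4).congr_deriv ?_
    push_cast
    ring
  have D1 : ∀ τ, |τ| ≤ 1 → HasDerivAt G1 (G2 τ) τ := by
    intro τ hτ
    have a1 := (cmp (hF.hq1 s' hs' _ (ht τ hτ))).const_mul r'
    have a2 := (cmp (hF.hq1 s hs _ (ht τ hτ))).const_mul r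
    have a3 := (((hasDerivAt_id τ).const_mul (r' * F.p s' t₀ - r * F.p s t₀)).const_add (r' * F.q1 s' t₀ - r * F.q1 s t₀)).add
      ((hasDerivAt_pow 2 τ).const_mul ((r' * F.q3 s' t₀ - r * F.q3 s t₀) / 2))
    rw [hG1, hG2]
    refine ((a1.sub a2).sub a3).congr_deriv ?_
    push_cast
    ring
  have D2 : ∀ τ, |τ| ≤ 1 → HasDerivAt G2 (G3 τ) τ := by
    intro τ hτ
    have a1 := (cmp (hF.hp s' hs' _ (ht τ hτ))).const_mul r'
    have a2 := (cmp (hF.hp s hs _ (ht τ hτ))).const_mul r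
    have a3 := ((hasDerivAt_id τ).const_mul (r' * F.q3 s' t₀ - r * F.q3 s t₀)).const_add (r' * F.p s' t₀ - r * F.p s t₀)
    rw [hG2, hG3]
    refine ((a1.sub a2).sub a3).congr_deriv ?_
    ring
  have D3 : ∀ τ, |τ| ≤ 1 → HasDerivAt G3 (G4 τ) τ := by
    intro τ hτ
    have a1 := (cmp (hF.hq3 s' hs' _ (ht τ hτ))).const_mul r'
    have a2 := (cmp (hF.hq3 s hs _ (ht τ hτ))).const_mul r
    rw [hG3, hG4]
    exact (a1.sub a2).sub_const _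
  have b4 : ∀ τ, |τ| ≤ 1 → |G4 τ| ≤ L * |τ| ^ 0 := by
    intro τ hτ
    rw [hG4, pow_zero, mul_one]
    exact hL _ (ht τ hτ)
  have b3 : ∀ τ, |τ| ≤ 1 → |G3 τ| ≤ L * |τ| ^ 1 := fun τ hτ => step65 (n := 0) D3 (by rw [hG3]; simp) b4 hτ
  have b2 : ∀ τ, |τ| ≤ 1 → |G2 τ| ≤ L * |τ| ^ 2 := fun τ hτ => step65 (n := 1) D2 (by rw [hG2]; simp) b3 hτ
  have b1 : ∀ τ, |τ| ≤ 1 → |G1 τ| ≤ L * |τ| ^ 3 := fun τ hτ => step65 (n := 2) D1 (by rw [hG1]; simp) b2 hτ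
  have b0 : ∀ τ, |τ| ≤ 1 → |G65 F t₀ r s r' s' τ| ≤ L * |τ| ^ 4 := fun τ hτ => step65 (n := 3) D0 (by unfold G65; simp) b1 hτ
  refine ⟨fun τ hτ => b0 τ (hτ.trans hw), fun τ τ' hτ hτ' => ?_⟩
  exact mv65 (w := w) (fun t ht => D0 t (ht.trans hw)) (fun t ht => (b1 t (ht.trans hw)).trans
    (mul_le_mul_of_nonneg_left (pow_le_pow_left₀ (abs_nonneg _) ht 3) hL0)) hτ hτ'

/-- D2: linearisation; `x_t` is monotone on the interval -/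
theorem locG {B₀ B lam : ℝ} (hB₀ : 1 ≤ B₀) (hB : 1 ≤ B) (hl : 1 ≤ lam) : ∃ C w₀ : ℝ, 1 ≤ C ∧ 0 < w₀ ∧ w₀ ≤ 1 ∧
    ∀ (F : Fam), F.Ok B₀ → ∀ (X H w ρ σ t₀ s₀ l r s r' s' : ℝ) (S : Finset (ℤ × ℤ)), 0 < X → 0 < H → 0 < w → w ≤ w₀ → |t₀| ≤ 3 → 0 < σ → In s₀ l →
      (∀ v ∈ Icc (s₀ - l) (s₀ + l), σ ≤ |F.J v t₀|) → r ∈ Icc (X / B) (B * X) → r' ∈ Icc (X / B) (B * X) → s ∈ Icc (s₀ - l) (s₀ + l) → s' ∈ Icc (s₀ - l) (s₀ + l) →
      |(Ar F t₀ (r', s')).1 - (Ar F t₀ (r, s)).1| ≤ ρ → |(Ar F t₀ (r', s')).2 - (Ar F t₀ (r, s)).2| ≤ ρ →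
      (∀ k ∈ S, 0 < uu 0 k ∧ uu 0 k ≤ lam * H ∧ |tt 0 k - t₀| ≤ w) → ρ * H * w ^ 4 ≤ σ →
      mf F S r' s' ≤ C * lf2 t₀ S (fun k => ee (r * ((k.1 : ℝ) * F.q s (tt 0 k)))) (Ar F t₀ (r', s') - Ar F t₀ (r, s)) ∧
      lf2 t₀ S (fun k => ee (r * ((k.1 : ℝ) * F.q s (tt 0 k)))) (Ar F t₀ (r', s') - Ar F t₀ (r, s)) ≤ C * mf F S r' s' := by
  obtain ⟨C1, hC1⟩ : ∃ C1, C1 = 2 * B * B₀ * (B₀ ^ 2 + 1) := ⟨_, rfl⟩
  obtain ⟨C2, hC2⟩ : ∃ C2, C2 = 2 * B₀ ^ 2 + B * B₀ ^ 2 * C1 := ⟨_, rfl⟩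
  obtain ⟨K, hK⟩ : ∃ K, K = C2 * B₀ + B * B₀ * C1 := ⟨_, rfl⟩
  have hC10 : 0 ≤ C1 := by rw [hC1]; positivity
  have hC20 : 0 ≤ C2 := by rw [hC2]; positivity
  have hK0 : 0 ≤ K := by rw [hK]; positivity
  obtain ⟨D, hD⟩ : ∃ D, D = 2 * K * lam := ⟨_, rfl⟩
  have hD0 : 0 ≤ D := by rw [hD]; positivity
  refine ⟨1 + exp (3800 * D) ^ 12, 1, by linarith [pow_pos (exp_pos (3800 * D)) 12], one_pos, le_rfl, ?_⟩
  intro F hF X H w ρ σ t₀ s₀ l r s r' s' S hX hH hw hw1 ht₀ hσ hI hJ hr hr' hs hs' d1 d2 hS hsm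
  have hρ : 0 ≤ ρ := (abs_nonneg _).trans d1
  obtain ⟨i1, i2⟩ := inc65 hF hB hX ht₀ hσ hI hJ hr hr' hs hs' d1 d2
  rw [← hC1] at i1 i2
  have hin : ∀ v ∈ Icc (s₀ - l) (s₀ + l), v ∈ Icc (-1 : ℝ) 2 := fun v hv => ⟨by linarith [hv.1, hI.2.1], by linarith [hv.2, hI.2.2]⟩
  have r0 : 0 < r := lt_of_lt_of_le (by positivity) hr.1
  obtain ⟨L, hL⟩ : ∃ L, L = K / σ * ρ := ⟨_, rfl⟩
  have hL0 : 0 ≤ L := by rw [hL]; positivity
  have hq4 : ∀ t : ℝ, |t| ≤ 12 → |r' * F.q4 s' t - r * F.q4 s t| ≤ L := by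
    intro t ht
    obtain ⟨-, -, -, -, b4, -, -, -⟩ := hF.bd s' (hin s' hs') t ht
    have b5 := (hF.lip s' (hin s' hs') s (hin s hs) t ht).2
    have e1 : r' * F.q4 s' t - r * F.q4 s t = (r' - r) * F.q4 s' t + r * (F.q4 s' t - F.q4 s t) := by ring
    have e2 : |r' * F.q4 s' t - r * F.q4 s t| ≤ |r' - r| * B₀ + B * X * (B₀ * |s' - s|) := by
      rw [e1]
      refine (abs_add_le _ _).trans (add_le_add ?_ ?_)
      · rw [abs_mul]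
        exact mul_le_mul_of_nonneg_left b4 (abs_nonneg _)
      · rw [abs_mul, abs_of_pos r0]
        exact mul_le_mul hr.2 b5 (abs_nonneg _) (by positivity)
    refine e2.trans ?_
    rw [hL, div_mul_eq_mul_div, le_div_iff₀ hσ]
    have e3 : (|r' - r| * B₀ + B * X * (B₀ * |s' - s|)) * σ = B₀ * (σ * |r' - r|) + B * B₀ * (X * (σ * |s' - s|)) := by ring
    rw [e3]
    have e4 : B₀ * (σ * |r' - r|) ≤ B₀ * (2 * B₀ ^ 2 * ρ + B * B₀ ^ 2 * (C1 * ρ)) := mul_le_mul_of_nonneg_left i2 (by positivity)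
    have e5 : B * B₀ * (X * (σ * |s' - s|)) ≤ B * B₀ * (C1 * ρ) := mul_le_mul_of_nonneg_left i1 (by positivity)
    rw [hK, hC2]
    linarith
  obtain ⟨G1, G2⟩ := G_bd65 hF ht₀ (hin s hs) (hin s' hs') hL0 hq4 hw1
  obtain ⟨g, hg⟩ : ∃ g : ℝ → ℝ, g = G65 F t₀ r s r' s' := ⟨_, rfl⟩
  rw [← hg] at G1 G2
  have hsm' : L * H * w ^ 4 ≤ K := by
    have g1 : L * H * w ^ 4 = K / σ * (ρ * H * w ^ 4) := by rw [hL]; ring
    rw [g1]
    calc K / σ * (ρ * H * w ^ 4) ≤ K / σ * σ := mul_le_mul_of_nonneg_left hsm (by positivity)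
      _ = K := by field_simp
  have hU : 0 < lam * H := by positivity
  have hmem : ∀ t ∈ Icc (t₀ - w) (t₀ + w), |t - t₀| ≤ w := by
    intro t ht
    rw [abs_le]
    constructor <;> linarith [ht.1, ht.2]
  have hS' : ∀ k ∈ S, 0 < uu 0 k ∧ uu 0 k ≤ lam * H ∧ t₀ - w ≤ tt 0 k ∧ tt 0 k ≤ t₀ + w := by
    intro k hk
    obtain ⟨a, b, c⟩ := hS k hk
    have := abs_le.1 c
    exact ⟨a, b, by linarith, by linarith⟩
  have gb : ∀ τ, |τ| ≤ w → |g τ| * H ≤ K := by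
    intro τ hτ
    have a1 : |g τ| ≤ L * w ^ 4 := (G1 τ hτ).trans (mul_le_mul_of_nonneg_left (pow_le_pow_left₀ (abs_nonneg _) hτ 4) hL0)
    calc |g τ| * H ≤ L * w ^ 4 * H := mul_le_mul_of_nonneg_right a1 hH.le
      _ = L * H * w ^ 4 := by ring
      _ ≤ K := hsm'
  have gl : ∀ τ τ', |τ| ≤ w → |τ'| ≤ w → |g τ - g τ'| * (2 * w) * H ≤ 2 * K * |τ - τ'| := by
    intro τ τ' hτ hτ'
    have a1 := G2 τ τ' hτ hτ'
    calc |g τ - g τ'| * (2 * w) * H ≤ L * w ^ 3 * |τ - τ'| * (2 * w) * H := by gcongr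
      _ = 2 * (L * H * w ^ 4) * |τ - τ'| := by ring
      _ ≤ 2 * K * |τ - τ'| := by gcongr
  have hbd : ∀ s : ℝ, |s| ≤ 1 → ∀ t ∈ Icc (t₀ - w) (t₀ + w), |s * g (t - t₀)| ≤ D / (lam * H) := by
    intro s hs t ht
    have a1 := gb (t - t₀) (hmem t ht)
    rw [abs_mul, le_div_iff₀ hU, hD]
    have a2 : |s| * |g (t - t₀)| ≤ 1 * |g (t - t₀)| := mul_le_mul_of_nonneg_right hs (abs_nonneg _)
    calc |s| * |g (t - t₀)| * (lam * H) ≤ 1 * |g (t - t₀)| * (lam * H) := mul_le_mul_of_nonneg_right a2 hU.le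
      _ = |g (t - t₀)| * H * lam := by ring
      _ ≤ K * lam := mul_le_mul_of_nonneg_right a1 (by linarith)
      _ ≤ 2 * K * lam := by
        have : 0 ≤ K * lam := by positivity
        linarith
  have hlp : ∀ s : ℝ, |s| ≤ 1 → ∀ x ∈ Icc (t₀ - w) (t₀ + w), ∀ y ∈ Icc (t₀ - w) (t₀ + w),
      |s * g (x - t₀) - s * g (y - t₀)| * (t₀ + w - (t₀ - w)) ≤ D / (lam * H) * |x - y| := by
    intro s hs x hx y hy
    have a1 := gl (x - t₀) (y - t₀) (hmem x hx) (hmem y hy)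
    rw [show x - t₀ - (y - t₀) = x - y by ring] at a1
    rw [← mul_sub, abs_mul, show t₀ + w - (t₀ - w) = 2 * w by ring, div_mul_eq_mul_div, le_div_iff₀ hU, hD]
    have a2 : |s| * |g (x - t₀) - g (y - t₀)| ≤ 1 * |g (x - t₀) - g (y - t₀)| :=
      mul_le_mul_of_nonneg_right hs (abs_nonneg _)
    calc |s| * |g (x - t₀) - g (y - t₀)| * (2 * w) * (lam * H) ≤ 1 * |g (x - t₀) - g (y - t₀)| * (2 * w) * (lam * H) := by gcongr
      _ = |g (x - t₀) - g (y - t₀)| * (2 * w) * H * lam := by ring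
      _ ≤ 2 * K * |x - y| * lam := mul_le_mul_of_nonneg_right a1 (by linarith)
      _ = 2 * K * lam * |x - y| := by ring
  have hm1 := mul12_exp (S := S) (β := 0) (U := lam * H) (t₁ := t₀ - w) (t₂ := t₀ + w)
    (B := D) hU (by linarith) hS' (χ := fun t => 1 * g (t - t₀)) (hbd 1 (by norm_num)) (hlp 1 (by norm_num))
  have hm2 := mul12_exp (S := S) (β := 0) (U := lam * H) (t₁ := t₀ - w) (t₂ := t₀ + w)
    (B := D) hU (by linarith) hS' (χ := fun t => -1 * g (t - t₀)) (hbd (-1) (by norm_num)) (hlp (-1) (by norm_num))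
  -- the affine part
  obtain ⟨a0, ha0⟩ : ∃ a0, a0 = r' * F.q s' t₀ - r * F.q s t₀ := ⟨_, rfl⟩
  obtain ⟨a1, ha1⟩ : ∃ a1, a1 = r' * F.q1 s' t₀ - r * F.q1 s t₀ := ⟨_, rfl⟩
  obtain ⟨c, hc⟩ : ∃ c : ℝ × ℝ, c = (a0 - a1 * t₀, a1) := ⟨_, rfl⟩
  have hp0 : ∀ v ∈ Icc (-1 : ℝ) 2, F.p v t₀ ≠ 0 := by
    intro v hv h0
    have := hF.p_lo v hv t₀ (by linarith)
    rw [h0, mul_zero] at this
    linarith
  have hA3 : ∀ ρ v : ℝ, v ∈ Icc (-1 : ℝ) 2 → (Ar F t₀ (ρ, v)).2 = ρ * F.q3 v t₀ / 6 := by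
    intro ρ v hv
    have := hp0 v hv
    unfold Ar Fam.x
    simp only
    field_simp
    ring
  have hA2 : ∀ ρ v : ℝ, (Ar F t₀ (ρ, v)).1 = ρ * F.p v t₀ / 2 := fun ρ v => rfl
  have huu : ∀ k : ℤ × ℤ, uu 0 k = (k.1 : ℝ) := fun k => by unfold uu; ring
  have hph : ∀ k ∈ S, r' * ((k.1 : ℝ) * F.q s' (tt 0 k)) = dt k c +
      (r * ((k.1 : ℝ) * F.q s (tt 0 k)) + ln2 t₀ (Ar F t₀ (r', s') - Ar F t₀ (r, s)) k) + uu 0 k * (1 * g (tt 0 k - t₀)) := by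
    intro k hk
    have hk0 : (0 : ℝ) < k.1 := by
      have := (hS k hk).1
      rwa [huu] at this
    have e2 : (k.2 : ℝ) = k.1 * tt 0 k := by
      unfold tt
      rw [huu]
      field_simp
    have e3 : dt k c = (k.1 : ℝ) * (a0 + a1 * (tt 0 k - t₀)) := by
      unfold dt
      rw [hc, e2]
      simp only
      ring
    have e4 : (Ar F t₀ (r', s') - Ar F t₀ (r, s)).1 = r' * F.p s' t₀ / 2 - r * F.p s t₀ / 2 := by
      rw [Prod.fst_sub, hA2, hA2]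
    have e5 : (Ar F t₀ (r', s') - Ar F t₀ (r, s)).2 = r' * F.q3 s' t₀ / 6 - r * F.q3 s t₀ / 6 := by
      rw [Prod.snd_sub, hA3 _ _ (hin s' hs'), hA3 _ _ (hin s hs)]
    have e6 : g (tt 0 k - t₀) = (r' * F.q s' (tt 0 k) - r * F.q s (tt 0 k)) - (a0 + a1 * (tt 0 k - t₀) +
        (r' * F.p s' t₀ - r * F.p s t₀) / 2 * (tt 0 k - t₀) ^ 2 + (r' * F.q3 s' t₀ - r * F.q3 s t₀) / 6 * (tt 0 k - t₀) ^ 3) := by
      rw [hg, ha0, ha1]
      unfold G65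
      rw [show t₀ + (tt 0 k - t₀) = tt 0 k by ring]
    rw [e3, e6]
    unfold ln2
    rw [e4, e5, huu]
    ring
  have hph2 : ∀ k ∈ S, r * ((k.1 : ℝ) * F.q s (tt 0 k)) + ln2 t₀ (Ar F t₀ (r', s') - Ar F t₀ (r, s)) k = dt k (-c) +
      r' * ((k.1 : ℝ) * F.q s' (tt 0 k)) + uu 0 k * (-1 * g (tt 0 k - t₀)) := by
    intro k hk
    rw [hph k hk]
    have : dt k (-c) = -dt k c := by
      unfold dt
      rw [Prod.fst_neg, Prod.snd_neg]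
      ring
    rw [this]
    ring
  have nn : ∀ a : ℤ × ℤ → ℂ, 0 ≤ m12 S a := fun a => m12_nonneg S a
  constructor
  · have e1 : mf F S r' s' = m12 S (fun k => ee (uu 0 k * (1 * g (tt 0 k - t₀))) *
        (ee (r * ((k.1 : ℝ) * F.q s (tt 0 k))) * ee (ln2 t₀ (Ar F t₀ (r', s') - Ar F t₀ (r, s)) k))) := by
      rw [← m12_shift S _ c]
      unfold mf
      refine m12_congr fun k hk => ?_
      rw [hph k hk, ee_add65, ee_add65, ee_add65]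
      ring
    rw [e1]
    refine (hm1.2 _).trans ?_
    unfold lf2
    have := nn (fun k => ee (r * ((k.1 : ℝ) * F.q s (tt 0 k))) * ee (ln2 t₀ (Ar F t₀ (r', s') - Ar F t₀ (r, s)) k))
    linarith
  · have e1 : lf2 t₀ S (fun k => ee (r * ((k.1 : ℝ) * F.q s (tt 0 k)))) (Ar F t₀ (r', s') - Ar F t₀ (r, s)) =
        m12 S (fun k => ee (uu 0 k * (-1 * g (tt 0 k - t₀))) * (ee (r' * ((k.1 : ℝ) * F.q s' (tt 0 k))))) := by
      rw [← m12_shift S _ (-c)]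
      unfold lf2
      refine m12_congr fun k hk => ?_
      rw [← ee_add65, hph2 k hk, ee_add65, ee_add65]
      ring
    rw [e1]
    refine (hm2.2 _).trans ?_
    unfold mf
    have := nn (fun k => ee (r' * ((k.1 : ℝ) * F.q s' (tt 0 k))))
    linarith

end Pool.Agent.Helper60.GM
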